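import Mathlib

/-!
Thue–Morse basics and factors avoided by `{q : t q = t (q + d)}` for odd `d`.
-/

set_option autoImplicit false

namespace Pool.Agent.H114.TM

/-- the Thue–Morse sequence: parity of the binary digit sum -/
def tm (n : ℕ) : ℕ := (Nat.digits 2 n).sum % 2

/-- Boolean form -/
def tb (n : ℕ) : Bool := decide (tm n = 1)

lemma tm_lt (n : ℕ) : tm n < 2 := Nat.mod_lt _ (by norm_num)

lemma tm_two_mul (n : ℕ) : tm (2 * n) = tm n := by
  unfold tm
  rcases Nat.eq_zero_or_pos n with h | h
  · subst h; simp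
  · rw [Nat.digits_def' (by norm_num) (by omega : 0 < 2 * n)]
    simp

lemma tm_two_mul_add_one (n : ℕ) : tm (2 * n + 1) = 1 - tm n := by
  unfold tm
  rw [Nat.digits_def' (by norm_num) (by omega : 0 < 2 * n + 1)]
  have h1 : (2 * n + 1) % 2 = 1 := by omega
  have h2 : (2 * n + 1) / 2 = n := by omega
  rw [h1, h2, List.sum_cons]
  omega

lemma tb_two_mul (n : ℕ) : tb (2 * n) = tb n := by
  unfold tb; rw [tm_two_mul]

lemma tb_two_mul_add_one (n : ℕ) : tb (2 * n + 1) = !tb n := by
  unfold tb
  rw [tm_two_mul_add_one]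
  have := tm_lt n
  by_cases h : tm n = 1
  · simp [h]
  · have : tm n = 0 := by omega
    simp [this]

lemma tb_zero : tb 0 = false := by
  unfold tb tm; simp

lemma tm_eq_iff (m n : ℕ) : tm m = tm n ↔ tb m = tb n := by
  unfold tb
  have := tm_lt n
  have := tm_lt m
  constructor
  · intro h; rw [h]
  · intro h
    by_cases h1 : tm m = 1
    · simp only [h1, decide_true] at h
      rw [h1]
      exact (of_decide_eq_true h.symm).symm
    · simp only [h1, decide_false] at h
      have := of_decide_eq_false h.symm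
      omega

/-- block decomposition -/
lemma tb_block (m : ℕ) : ∀ (a i : ℕ), i < 2 ^ m → tb (2 ^ m * a + i) = xor (tb a) (tb i) := by
  induction m with
  | zero =>
    intro a i hi
    have : i = 0 := by simpa using hi
    subst this
    simp [tb_zero]
  | succ m ih =>
    intro a i hi
    rcases Nat.even_or_odd' i with ⟨j, rfl | rfl⟩
    · have : 2 ^ (m + 1) * a + 2 * j = 2 * (2 ^ m * a + j) := by ring
      rw [this, tb_two_mul, tb_two_mul, ih a j (by rw [pow_succ] at hi; omega)]
    · have : 2 ^ (m + 1) * a + (2 * j + 1) = 2 * (2 ^ m * a + j) + 1 := by ring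
      rw [this, tb_two_mul_add_one, tb_two_mul_add_one, ih a j (by rw [pow_succ] at hi; omega)]
      cases tb a <;> cases tb j <;> rfl

/-- The first `256` values of the Thue–Morse sequence as a bit string. -/
def C256 : ℕ := 0x6996966996696996966969966996966996696996699696696996966996696996

/-- The first `32` values. -/
def C32 : ℕ := 0x96696996

lemma tb_C256 : ∀ i < 256, tb i = Nat.testBit C256 i := by
  have h0 : ∀ j < 128, Nat.testBit C256 (2 * j) = Nat.testBit C256 j ∧
      Nat.testBit C256 (2 * j + 1) = !Nat.testBit C256 j := by decide +kernel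
  intro i
  induction i using Nat.strong_induction_on with
  | _ i ih =>
    intro hi
    rcases Nat.even_or_odd' i with ⟨j, rfl | rfl⟩
    · rcases Nat.eq_zero_or_pos j with h | h
      · subst h
        rw [Nat.mul_zero, tb_zero]
        decide +kernel
      · rw [tb_two_mul, ih j (by omega) (by omega), (h0 j (by omega)).1]
    · rw [tb_two_mul_add_one, ih j (by omega) (by omega), (h0 j (by omega)).2]

lemma tb_C32 : ∀ i < 32, tb i = Nat.testBit C32 i := by
  have h0 : ∀ j < 32, Nat.testBit C256 j = Nat.testBit C32 j := by decide +kernel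
  intro i hi
  rw [tb_C256 i (by omega), h0 i hi]

/-- two blocks of length `32` -/
def W32 (x y : Bool) : ℕ :=
  (if x then 2 ^ 32 - 1 - C32 else C32) + 2 ^ 32 * (if y then 2 ^ 32 - 1 - C32 else C32)

/-- two blocks of length `256` -/
def W256 (x y : Bool) : ℕ :=
  (if x then 2 ^ 256 - 1 - C256 else C256) + 2 ^ 256 * (if y then 2 ^ 256 - 1 - C256 else C256)

lemma W32_spec : ∀ i < 32, ∀ x y : Bool, Nat.testBit (W32 x y) i = xor x (Nat.testBit C32 i) ∧
    Nat.testBit (W32 x y) (32 + i) = xor y (Nat.testBit C32 i) := by decide +kernel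

lemma W256_spec : ∀ i < 256, ∀ x y : Bool, Nat.testBit (W256 x y) i = xor x (Nat.testBit C256 i) ∧
    Nat.testBit (W256 x y) (256 + i) = xor y (Nat.testBit C256 i) := by decide +kernel

lemma tb_W32 (a i : ℕ) (hi : i < 64) : tb (32 * a + i) = Nat.testBit (W32 (tb a) (tb (a + 1))) i := by
  rcases Nat.lt_or_ge i 32 with h | h
  · rw [(W32_spec i h _ _).1, ← tb_C32 i h]
    exact tb_block 5 a i (by norm_num; exact h)
  · obtain ⟨j, rfl⟩ : ∃ j, i = 32 + j := ⟨i - 32, by omega⟩
    rw [(W32_spec j (by omega) _ _).2, ← tb_C32 j (by omega)]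
    have : 32 * a + (32 + j) = 2 ^ 5 * (a + 1) + j := by ring
    rw [this]
    exact tb_block 5 (a + 1) j (by norm_num; omega)

lemma tb_W256 (a i : ℕ) (hi : i < 512) :
    tb (256 * a + i) = Nat.testBit (W256 (tb a) (tb (a + 1))) i := by
  rcases Nat.lt_or_ge i 256 with h | h
  · rw [(W256_spec i h _ _).1, ← tb_C256 i h]
    exact tb_block 8 a i (by norm_num; exact h)
  · obtain ⟨j, rfl⟩ : ∃ j, i = 256 + j := ⟨i - 256, by omega⟩
    rw [(W256_spec j (by omega) _ _).2, ← tb_C256 j (by omega)]
    have : 256 * a + (256 + j) = 2 ^ 8 * (a + 1) + j := by ring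
    rw [this]
    exact tb_block 8 (a + 1) j (by norm_num; omega)

end Pool.Agent.H114.TM
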