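import Pool.Agent.H114.TM.Main

/-!
Upper bounds for all differences, and the extremal progressions.
-/

set_option autoImplicit false

namespace Pool.Agent.H114.TM

lemma tb_one : tb 1 = true := by
  have := tb_two_mul_add_one 0
  rw [tb_zero] at this
  simpa using this

lemma tb_pow_sub_one (k : ℕ) : tb (2 ^ k - 1) = decide (k % 2 = 1) := by
  induction k with
  | zero => simp [tb_zero]
  | succ k ih =>
    have hp : 0 < 2 ^ k := by positivity
    have e : 2 ^ (k + 1) - 1 = 2 * (2 ^ k - 1) + 1 := by rw [pow_succ]; omega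
    rw [e, tb_two_mul_add_one, ih]
    rcases Nat.mod_two_eq_zero_or_one k with h | h
    · have : (k + 1) % 2 = 1 := by omega
      simp [h, this]
    · have : (k + 1) % 2 = 0 := by omega
      simp [h, this]

lemma tb_compl (k : ℕ) : ∀ u, u < 2 ^ k → tb (2 ^ k - 1 - u) = xor (decide (k % 2 = 1)) (tb u) := by
  induction k with
  | zero =>
    intro u hu
    have : u = 0 := by simpa using hu
    subst this
    simp [tb_zero]
  | succ k ih =>
    intro u hu
    have hp : 0 < 2 ^ k := by positivity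
    have hpow : 2 ^ (k + 1) = 2 * 2 ^ k := by ring
    rw [hpow] at hu ⊢
    have hk : decide ((k + 1) % 2 = 1) = !decide (k % 2 = 1) := by
      rcases Nat.mod_two_eq_zero_or_one k with h | h
      · have : (k + 1) % 2 = 1 := by omega
        simp [h, this]
      · have : (k + 1) % 2 = 0 := by omega
        simp [h, this]
    rw [hk]
    rcases Nat.even_or_odd' u with ⟨v, rfl | rfl⟩
    · have e : 2 * 2 ^ k - 1 - 2 * v = 2 * (2 ^ k - 1 - v) + 1 := by omega
      rw [e, tb_two_mul_add_one, tb_two_mul, ih v (by omega)]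
      cases decide (k % 2 = 1) <;> cases tb v <;> rfl
    · have e : 2 * 2 ^ k - 1 - (2 * v + 1) = 2 * (2 ^ k - 1 - v) := by omega
      rw [e, tb_two_mul_add_one, tb_two_mul, ih v (by omega)]
      cases decide (k % 2 = 1) <;> cases tb v <;> rfl

/-- halving an even difference -/
lemma Mono.half {n c l : ℕ} (h : Mono n (2 * c) l) : Mono (n / 2) c l := by
  intro j hj
  have h1 := h j hj
  rcases Nat.even_or_odd' n with ⟨a, rfl | rfl⟩
  · rw [show 2 * a + j * (2 * c) = 2 * (a + j * c) by ring, tb_two_mul, tb_two_mul] at h1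
    rw [show 2 * a / 2 = a by omega]
    exact h1
  · rw [show 2 * a + 1 + j * (2 * c) = 2 * (a + j * c) + 1 by ring, tb_two_mul_add_one,
      tb_two_mul_add_one] at h1
    rw [show (2 * a + 1) / 2 = a by omega]
    simpa using h1

/-- `d = 2 ^ k - 1` with `k` odd -/
lemma not_mono_odd {n k : ℕ} (hk : k % 2 = 1) : ¬ Mono n (2 ^ k - 1) (2 ^ k + 1) := by
  intro h
  have hp : 0 < 2 ^ k := by positivity
  have hr := Nat.mod_lt n hp
  have hn := Nat.div_add_mod n (2 ^ k)
  set r := n % 2 ^ k with hrdef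
  set a := n / 2 ^ k with ha
  obtain ⟨D, hD⟩ : ∃ D, 2 ^ k = D + 1 := ⟨2 ^ k - 1, by omega⟩
  have e0 : n + r * (2 ^ k - 1) = 2 ^ k * (a + r) + 0 := by
    have : r * (2 ^ k - 1) + r = 2 ^ k * r := by
      rw [hD, Nat.add_sub_cancel]; ring
    rw [Nat.mul_add]; omega
  have e1 : n + (r + 1) * (2 ^ k - 1) = 2 ^ k * (a + r) + (2 ^ k - 1) := by
    rw [Nat.add_mul]; omega
  have h0 := h r (by omega)
  have h1 := h (r + 1) (by omega)
  rw [e0, tb_block k _ _ hp, tb_zero] at h0
  rw [e1, tb_block k _ _ (by omega), tb_pow_sub_one, ← h0] at h1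
  simp only [hk, decide_true] at h1
  revert h1
  generalize tb (a + r) = x
  cases x <;> decide

/-- `d = 2 ^ k - 1` with `k ≥ 2` -/
lemma not_mono_pow {n k : ℕ} (hk : 2 ≤ k) : ¬ Mono n (2 ^ k - 1) (2 ^ k + 5) := by
  intro h
  have hN : 4 ≤ 2 ^ k := by
    calc 4 = 2 ^ 2 := by norm_num
      _ ≤ 2 ^ k := Nat.pow_le_pow_right (by norm_num) hk
  set N := 2 ^ k with hNdef
  have hpos : 0 < N := by omega
  have step : ∀ j, ((n + j * (N - 1)) % N = 0 ∧ (n + (j + 1) * (N - 1)) % N = N - 1 ∧
      (n + (j + 1) * (N - 1)) / N = (n + j * (N - 1)) / N) ∨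
      (0 < (n + j * (N - 1)) % N ∧ (n + (j + 1) * (N - 1)) % N + 1 = (n + j * (N - 1)) % N ∧
      (n + (j + 1) * (N - 1)) / N = (n + j * (N - 1)) / N + 1) := by
    intro j
    have e1 : n + (j + 1) * (N - 1) = n + j * (N - 1) + (N - 1) := by rw [Nat.add_mul]; omega
    rw [e1]
    generalize n + j * (N - 1) = x
    have h0 := Nat.div_add_mod x N
    have hlt := Nat.mod_lt x hpos
    rcases Nat.eq_zero_or_pos (x % N) with hz | hz
    · left
      have e2 : x + (N - 1) = (N - 1) + N * (x / N) := by omega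
      refine ⟨hz, ?_, ?_⟩
      · rw [e2, Nat.add_mul_mod_self_left, Nat.mod_eq_of_lt (by omega)]
      · rw [e2, Nat.add_mul_div_left _ _ hpos, Nat.div_eq_of_lt (by omega)]; omega
    · right
      have e2 : x + (N - 1) = (x % N - 1) + N * (x / N + 1) := by
        rw [Nat.mul_add, Nat.mul_one]; omega
      refine ⟨hz, ?_, ?_⟩
      · rw [e2, Nat.add_mul_mod_self_left, Nat.mod_eq_of_lt (by omega)]; omega
      · rw [e2, Nat.add_mul_div_left _ _ hpos, Nat.div_eq_of_lt (by omega)]; omega
  have agree : ∀ j ≤ 4, tb ((n + j * (N - 1)) / N) = tb ((n + j * (N - 1)) / N + (N - 1)) := by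
    intro j hj
    exact h.agree (m := k) (by omega)
  have s0 := step 0
  have s1 := step 1
  have s2 := step 2
  have s3 := step 3
  norm_num only at s0 s1 s2 s3
  have key : ∀ u ≤ 3, ∃ j ≤ 4, (n + j * (N - 1)) / N = (n + 0 * (N - 1)) / N + u := by
    intro u hu
    by_cases hq : (n + u * (N - 1)) / N = (n + 0 * (N - 1)) / N + u
    · exact ⟨u, by omega, hq⟩
    · refine ⟨u + 1, by omega, ?_⟩
      have : u = 0 ∨ u = 1 ∨ u = 2 ∨ u = 3 := by omega
      rcases this with rfl | rfl | rfl | rfl <;> norm_num only at hq ⊢ <;> omega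
  have hh : ∀ u ≤ 3, tb ((n + 0 * (N - 1)) / N + u) =
      tb ((n + 0 * (N - 1)) / N + u + (N - 1)) := by
    intro u hu
    obtain ⟨j, hj, e⟩ := key u hu
    rw [← e]
    exact agree j hj
  have hNe : N % 2 = 0 := by
    obtain ⟨r, rfl⟩ : ∃ r, k = r + 1 := ⟨k - 1, by omega⟩
    rw [hNdef, pow_succ]; omega
  refine not_hits_FW w111 (by simp [FW]) ((n + 0 * (N - 1)) / N)
    ((n + 0 * (N - 1)) / N + (N - 1)) (by omega) ?_
  refine ⟨?_, ?_, ?_, ?_⟩
  · exact hh 0 (by omega)
  · have := hh 1 (by omega)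
    rw [show (n + 0 * (N - 1)) / N + 1 + (N - 1) = (n + 0 * (N - 1)) / N + (N - 1) + 1 by ring]
      at this
    exact this
  · have := hh 2 (by omega)
    rw [show (n + 0 * (N - 1)) / N + 2 + (N - 1) = (n + 0 * (N - 1)) / N + (N - 1) + 2 by ring]
      at this
    exact this
  · have := hh 3 (by omega)
    rw [show (n + 0 * (N - 1)) / N + 3 + (N - 1) = (n + 0 * (N - 1)) / N + (N - 1) + 3 by ring]
      at this
    exact this

/-- the general upper bounds -/
theorem upper (d : ℕ) : 1 ≤ d → (∀ n, ¬ Mono n d (d + 6)) ∧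
    ((¬ ∃ k, 2 ≤ k ∧ Even k ∧ d = 2 ^ k - 1) → ∀ n, ¬ Mono n d (d + 5)) := by
  induction d using Nat.strong_induction_on with
  | _ d ih =>
    intro hd
    rcases Nat.even_or_odd' d with ⟨c, rfl | rfl⟩
    · have h1 := ih c (by omega) (by omega)
      have h2 : ∀ n, ¬ Mono n (2 * c) (2 * c + 5) := fun n h =>
        h1.1 (n / 2) (h.half.le (by omega))
      exact ⟨fun n h => h2 n (h.le (by omega)), fun _ => h2⟩
    · by_cases hk : ∃ k, 2 * c + 1 + 1 = 2 ^ k
      · obtain ⟨k, hk⟩ := hk
        have hd' : 2 * c + 1 = 2 ^ k - 1 := by omega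
        rcases Nat.mod_two_eq_zero_or_one k with h0 | h1
        · have hk2 : 2 ≤ k := by
            by_contra hcon
            have : k = 0 := by omega
            subst this
            simp at hk
          refine ⟨fun n h => ?_, fun hne => absurd ⟨k, hk2, Nat.even_iff.2 h0, hd'⟩ hne⟩
          rw [hd'] at h
          exact not_mono_pow hk2 (h.le (by omega))
        · have h2 : ∀ n, ¬ Mono n (2 * c + 1) (2 * c + 1 + 5) := by
            intro n h
            rw [hd'] at h
            exact not_mono_odd h1 (h.le (by omega))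
          exact ⟨fun n h => h2 n (h.le (by omega)), fun _ => h2⟩
      · have h2 : ∀ n, ¬ Mono n (2 * c + 1) (2 * c + 1 + 5) := fun n =>
          no_long (2 * c + 1) n (by omega) (fun k hk' => hk ⟨k, hk'⟩)
        exact ⟨fun n h => h2 n (h.le (by omega)), fun _ => h2⟩

/-- the extremal progressions -/
theorem lower (k : ℕ) (hk : 2 ≤ k) (he : Even k) :
    Mono (2 ^ (2 * k + 2) - (2 ^ k - 1)) (2 ^ k - 1) (2 ^ k + 4) := by
  have he' : k % 2 = 0 := Nat.even_iff.1 he
  have hN : 4 ≤ 2 ^ k := by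
    calc 4 = 2 ^ 2 := by norm_num
      _ ≤ 2 ^ k := Nat.pow_le_pow_right (by norm_num) hk
  have hbig : 2 ^ (2 * k + 2) = 4 * (2 ^ k * 2 ^ k) := by ring
  obtain ⟨D, hD⟩ : ∃ D, 2 ^ k = D + 1 := ⟨2 ^ k - 1, by omega⟩
  have hsq : 2 ^ k ≤ 2 ^ k * 2 ^ k := Nat.le_mul_of_pos_left _ (by positivity)
  -- value at the start
  have hstart : tb (2 ^ (2 * k + 2) - (2 ^ k - 1)) = true := by
    have e : 2 ^ (2 * k + 2) - (2 ^ k - 1) = 2 ^ k * (2 ^ (k + 2) - 1) + 1 := by
      have e1 : 2 ^ k * (2 ^ (k + 2) - 1) + 2 ^ k = 2 ^ (2 * k + 2) := by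
        have : 2 ^ k * (2 ^ (k + 2) - 1) + 2 ^ k = 2 ^ k * ((2 ^ (k + 2) - 1) + 1) := by ring
        rw [this, Nat.sub_add_cancel Nat.one_le_two_pow, ← pow_add]
        congr 1; ring
      omega
    rw [e, tb_block k _ _ (by omega), tb_pow_sub_one, tb_one]
    have : (k + 2) % 2 = 0 := by omega
    simp [this]
  -- values at `2 ^ (2 k + 2) + y`
  have htop : ∀ y, y < 2 ^ (2 * k + 2) → tb y = false → tb (2 ^ (2 * k + 2) + y) = true := by
    intro y hy h0
    have := tb_block (2 * k + 2) 1 y hy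
    rw [mul_one, tb_one, h0] at this
    simpa using this
  intro j hj
  rw [hstart]
  rcases Nat.eq_zero_or_pos j with h0 | h0
  · subst h0; rw [zero_mul, add_zero]; exact hstart
  · obtain ⟨m, rfl⟩ : ∃ m, j = m + 1 := ⟨j - 1, by omega⟩
    have e : 2 ^ (2 * k + 2) - (2 ^ k - 1) + (m + 1) * (2 ^ k - 1)
        = 2 ^ (2 * k + 2) + m * (2 ^ k - 1) := by
      have : (m + 1) * (2 ^ k - 1) = m * (2 ^ k - 1) + (2 ^ k - 1) := by ring
      rw [this]
      omega
    rw [e]
    apply htop
    · calc m * (2 ^ k - 1) ≤ (2 ^ k + 2) * 2 ^ k := Nat.mul_le_mul (by omega) (by omega)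
        _ < 2 ^ (2 * k + 2) := by rw [hbig]; nlinarith
    · rcases Nat.eq_zero_or_pos m with hm | hm
      · subst hm; rw [zero_mul]; exact tb_zero
      · obtain ⟨u, rfl⟩ : ∃ u, m = u + 1 := ⟨m - 1, by omega⟩
        rcases Nat.lt_or_ge u (2 ^ k) with hu | hu
        · have e1 : (u + 1) * (2 ^ k - 1) = 2 ^ k * u + (2 ^ k - 1 - u) := by
            obtain ⟨v, hv⟩ : ∃ v, D = u + v := ⟨D - u, by omega⟩
            rw [hD, Nat.add_sub_cancel, hv, Nat.add_sub_cancel_left]
            ring
          rw [e1, tb_block k _ _ (by omega), tb_compl k u hu, he']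
          simp
        · have : u = 2 ^ k ∨ u = 2 ^ k + 1 := by omega
          rcases this with hu' | hu'
          · have e1 : (u + 1) * (2 ^ k - 1) = 2 ^ (2 * k) - 1 := by
              have e2 : 2 ^ (2 * k) = 2 ^ k * 2 ^ k := by ring
              rw [hu', e2, hD, Nat.add_sub_cancel]
              have : (D + 1) * (D + 1) = (D + 1 + 1) * D + 1 := by ring
              omega
            rw [e1, tb_pow_sub_one]
            have : (2 * k) % 2 = 0 := by omega
            simp [this]
          · obtain ⟨r, rfl⟩ : ∃ r, k = r + 1 := ⟨k - 1, by omega⟩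
            have e1 : (u + 1) * (2 ^ (r + 1) - 1) =
                2 ^ (2 * (r + 1)) * 1 + 2 * (2 ^ r - 1) := by
              have e2 : 2 ^ (2 * (r + 1)) = 2 ^ (r + 1) * 2 ^ (r + 1) := by ring
              have e3 : 2 * (2 ^ r - 1) + 2 = 2 ^ (r + 1) := by
                have : 0 < 2 ^ r := by positivity
                rw [pow_succ]; omega
              rw [hu', e2, hD, Nat.add_sub_cancel]
              have : (D + 1 + 1 + 1) * D + 2 = (D + 1) * (D + 1) * 1 + (D + 1) := by ring
              omega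
            have hlt : 2 * (2 ^ r - 1) < 2 ^ (2 * (r + 1)) := by
              have e3 : 2 * (2 ^ r - 1) < 2 ^ (r + 1) := by
                have : 0 < 2 ^ r := by positivity
                rw [pow_succ]; omega
              exact lt_of_lt_of_le e3 (Nat.pow_le_pow_right (by norm_num) (by omega))
            rw [e1, tb_block _ _ _ hlt, tb_one, tb_two_mul, tb_pow_sub_one]
            have : r % 2 = 1 := by omega
            simp [this]

end Pool.Agent.H114.TM
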