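import Pool.Agent.H114.TM.Basic

/-!
Gap words (letters `false = 1`, `true = 2`) which cannot occur in `{q : t q = t (q + d)}`, `d` odd.
-/

set_option autoImplicit false

namespace Pool.Agent.H114.TM

/-- the size of a gap -/
def gp (b : Bool) : ℕ := if b then 2 else 1

/-- agreement of the Thue–Morse sequence at `q, q + …` and `q', q' + …` along a gap word -/
def Hits : List Bool → ℕ → ℕ → Prop
  | [], q, q' => tb q = tb q'
  | b :: w, q, q' => tb q = tb q' ∧ Hits w (q + gp b) (q' + gp b)

/-- the bit mask of a gap word -/
def mask : List Bool → ℕ
  | [] => 1
  | b :: w => 1 ||| (mask w <<< gp b)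

lemma hits_mask (w : List Bool) : ∀ (q q' : ℕ), Hits w q q' →
    ∀ i, Nat.testBit (mask w) i = true → tb (q + i) = tb (q' + i) := by
  induction w with
  | nil =>
    intro q q' h i hi
    have h1 : i = 0 := by
      exact Nat.testBit_one_eq_true_iff_self_eq_zero.1 hi
    subst h1
    exact h
  | cons b w ih =>
    intro q q' h i hi
    obtain ⟨h1, h2⟩ := h
    rcases Nat.eq_zero_or_pos i with h0 | h0
    · subst h0; exact h1
    · simp only [mask, Nat.testBit_or, Nat.testBit_one_eq_true_iff_self_eq_zero, Nat.testBit_shiftLeft, Bool.or_eq_true,
        Bool.and_eq_true, decide_eq_true_eq] at hi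
      rcases hi with hi | ⟨h3, h4⟩
      · omega
      · have := ih _ _ h2 (i - gp b) h4
        have e1 : q + gp b + (i - gp b) = q + i := by omega
        have e2 : q' + gp b + (i - gp b) = q' + i := by omega
        rwa [e1, e2] at this

/-- the four two-block strings -/
def Ws : List ℕ := [0x9669699696696996, 0x6996966996696996, 0x9669699669969669, 0x6996966969969669]

lemma mem_Ws (x y : Bool) : W32 x y ∈ Ws := by
  revert x y; decide +kernel

/-- the finite check for a mask -/
def chk (M : ℕ) : Bool :=
  (List.range 32).all fun r => (List.range 32).all fun s => ((r + s) % 2 == 0) ||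
    (Ws.all fun X => Ws.all fun Y => !((((X >>> r) ^^^ (Y >>> s)) &&& M) == 0))

theorem not_hits (w : List Bool) (hc : chk (mask w) = true) (hm : mask w < 2 ^ 33) (q q' : ℕ)
    (hq : (q + q') % 2 = 1) : ¬ Hits w q q' := by
  intro h
  have key := hits_mask w q q' h
  have hr : q % 32 < 32 := Nat.mod_lt _ (by norm_num)
  have hs : q' % 32 < 32 := Nat.mod_lt _ (by norm_num)
  have e1 : q = 32 * (q / 32) + q % 32 := (Nat.div_add_mod q 32).symm
  have e2 : q' = 32 * (q' / 32) + q' % 32 := (Nat.div_add_mod q' 32).symm
  generalize q % 32 = r at *
  generalize q' % 32 = s at *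
  generalize q / 32 = a at *
  generalize q' / 32 = b at *
  subst e1 e2
  unfold chk at hc
  rw [List.all_eq_true] at hc
  have h1 := hc r (List.mem_range.2 hr)
  rw [List.all_eq_true] at h1
  have h2 := h1 s (List.mem_range.2 hs)
  rw [Bool.or_eq_true] at h2
  rcases h2 with h2 | h2
  · rw [beq_iff_eq] at h2
    omega
  · rw [List.all_eq_true] at h2
    have h3 := h2 _ (mem_Ws (tb a) (tb (a + 1)))
    rw [List.all_eq_true] at h3
    have h4 := h3 _ (mem_Ws (tb b) (tb (b + 1)))
    have h5 : ((W32 (tb a) (tb (a + 1)) >>> r) ^^^ (W32 (tb b) (tb (b + 1)) >>> s)) &&& mask w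
        = 0 := by
      apply Nat.eq_of_testBit_eq
      intro i
      rw [Nat.testBit_and, Nat.testBit_xor, Nat.testBit_shiftRight, Nat.testBit_shiftRight,
        Nat.zero_testBit]
      by_cases hi : Nat.testBit (mask w) i = true
      · have hi33 : i < 33 := by
          by_contra hcon
          have := Nat.testBit_lt_two_pow (lt_of_lt_of_le hm
            (Nat.pow_le_pow_right (by norm_num : 0 < 2) (by omega : 33 ≤ i)))
          rw [this] at hi
          exact absurd hi (by simp)
        have h6 := key i hi
        have e3 : 32 * a + r + i = 32 * a + (r + i) := by ring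
        have e4 : 32 * b + s + i = 32 * b + (s + i) := by ring
        rw [e3, e4, tb_W32 a (r + i) (by omega), tb_W32 b (s + i) (by omega)] at h6
        rw [h6]
        simp
      · have : Nat.testBit (mask w) i = false := by simpa using hi
        rw [this]; simp
    rw [h5] at h4
    simp at h4

/-- the words used -/
def w111 : List Bool := [false, false, false]
def w12121 : List Bool := [false, true, false, true, false]
def w1221221 : List Bool := [false, true, true, false, true, true, false]
def w2221222 : List Bool := [true, true, true, false, true, true, true]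
def w21222122 : List Bool := [true, false, true, true, true, false, true, true]
def w1211211211 : List Bool :=
  [false, true, false, false, true, false, false, true, false, false]
def wA : List Bool :=
  [true, false, true, false, true, true, false, true, false, true, true, false, true, false,
    true, true]

lemma chk111 : chk (mask w111) = true := by decide +kernel
lemma chk12121 : chk (mask w12121) = true := by decide +kernel
lemma chk1221221 : chk (mask w1221221) = true := by decide +kernel
lemma chk2221222 : chk (mask w2221222) = true := by decide +kernel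
lemma chk21222122 : chk (mask w21222122) = true := by decide +kernel
lemma chk1211211211 : chk (mask w1211211211) = true := by decide +kernel
lemma chkA : chk (mask wA) = true := by decide +kernel

/-- the list of forbidden words -/
def FW : List (List Bool) :=
  [w111, w12121, w1221221, w2221222, w21222122, w1211211211, wA]

theorem not_hits_FW (w : List Bool) (hw : w ∈ FW) (q q' : ℕ) (hq : (q + q') % 2 = 1) :
    ¬ Hits w q q' := by
  simp only [FW, List.mem_cons, List.not_mem_nil, or_false] at hw
  rcases hw with rfl | rfl | rfl | rfl | rfl | rfl | rfl
  · exact not_hits _ chk111 (by decide +kernel) q q' hq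
  · exact not_hits _ chk12121 (by decide +kernel) q q' hq
  · exact not_hits _ chk1221221 (by decide +kernel) q q' hq
  · exact not_hits _ chk2221222 (by decide +kernel) q q' hq
  · exact not_hits _ chk21222122 (by decide +kernel) q q' hq
  · exact not_hits _ chk1211211211 (by decide +kernel) q q' hq
  · exact not_hits _ chkA (by decide +kernel) q q' hq

end Pool.Agent.H114.TM
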