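import Pool.Agent.H114.TM.Forb

/-!
The gap word of a long monochromatic progression of odd difference.
-/

set_option autoImplicit false

namespace Pool.Agent.H114.TM

/-! ### Occurrences of words and the search -/

/-- the word `w` occurs in `g` at position `j` -/
def Occ (g : ℕ → Bool) : List Bool → ℕ → Prop
  | [], _ => True
  | b :: w, j => g j = b ∧ Occ g w (j + 1)

lemma occ_append (g : ℕ → Bool) (u v : List Bool) : ∀ j, Occ g (u ++ v) j ↔
    Occ g u j ∧ Occ g v (j + u.length) := by
  induction u with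
  | nil => intro j; simp [Occ]
  | cons b u ih =>
    intro j
    simp only [List.cons_append, Occ, ih, List.length_cons]
    rw [show j + 1 + u.length = j + (u.length + 1) by ring]
    tauto

/-- the reversed prefix of length `m` -/
def rev (g : ℕ → Bool) : ℕ → List Bool
  | 0 => []
  | m + 1 => g m :: rev g m

lemma occ_of_prefix (g : ℕ → Bool) (f : List Bool) : ∀ m, f <+: rev g m →
    ∃ j, j + f.length = m ∧ Occ g f.reverse j := by
  induction f with
  | nil => intro m _; exact ⟨m, by simp, trivial⟩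
  | cons b f ih =>
    intro m h
    cases m with
    | zero => simp [rev] at h
    | succ m =>
      rw [rev, List.cons_prefix_cons] at h
      obtain ⟨j, h1, h2⟩ := ih m h.2
      refine ⟨j, by simp; omega, ?_⟩
      rw [List.reverse_cons, occ_append]
      refine ⟨h2, ?_, trivial⟩
      rw [List.length_reverse, h1]
      exact h.1.symm

/-- the words of length `m` (reversed) avoiding the words in `F` (reversed) -/
def lev (F : List (List Bool)) : ℕ → List (List Bool)
  | 0 => [[]]
  | m + 1 => (lev F m).flatMap fun w =>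
      [true :: w, false :: w].filter fun v => !(F.any fun f => f.isPrefixOf v)

lemma rev_mem_lev (g : ℕ → Bool) (F : List (List Bool)) (L : ℕ)
    (hF : ∀ f ∈ F, ∀ j, j + f.length ≤ L → ¬ Occ g f.reverse j) :
    ∀ m, m ≤ L → rev g m ∈ lev F m := by
  intro m
  induction m with
  | zero => intro _; simp [rev, lev]
  | succ m ih =>
    intro hm
    rw [lev, List.mem_flatMap]
    refine ⟨rev g m, ih (by omega), ?_⟩
    rw [List.mem_filter]
    constructor
    · rw [rev]
      cases g m <;> simp
    · rw [Bool.not_eq_true', List.any_eq_false]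
      intro f hf hp
      rw [List.isPrefixOf_iff_prefix] at hp
      obtain ⟨j, h1, h2⟩ := occ_of_prefix g f (m + 1) hp
      exact hF f hf j (by omega) h2

lemma lev_contra (g : ℕ → Bool) (F : List (List Bool)) (L m : ℕ) (hm : m ≤ L)
    (hF : ∀ f ∈ F, ∀ j, j + f.length ≤ L → ¬ Occ g f.reverse j) (he : lev F m = []) : False := by
  have := rev_mem_lev g F L hF m hm
  rw [he] at this
  simp at this

/-! ### The gap word -/

/-- data of a long monochromatic progression: `Q j` and `R j` are quotient and remainder of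
`n + j d` modulo `N`, and `d = N + e` -/
structure Gap (N e : ℕ) (Q R : ℕ → ℕ) : Prop where
  lt : ∀ j, R j < N
  step : ∀ j, (R j + e < N ∧ R (j + 1) = R j + e ∧ Q (j + 1) = Q j + 1) ∨
    (N ≤ R j + e ∧ R (j + 1) + N = R j + e ∧ Q (j + 1) = Q j + 2)
  odd : (N + e) % 2 = 1
  agree : ∀ j, j ≤ e + 4 → tb (Q j) = tb (Q j + (N + e))

/-- the gap word -/
def gw (N e : ℕ) (R : ℕ → ℕ) (j : ℕ) : Bool := decide (N ≤ R j + e)

lemma gw_true {N e : ℕ} {R : ℕ → ℕ} {j : ℕ} : gw N e R j = true ↔ N ≤ R j + e := by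
  simp [gw]

lemma gw_false {N e : ℕ} {R : ℕ → ℕ} {j : ℕ} : gw N e R j = false ↔ R j + e < N := by
  simp [gw]

lemma Gap.q_succ {N e : ℕ} {Q R : ℕ → ℕ} (h : Gap N e Q R) (j : ℕ) :
    Q (j + 1) = Q j + gp (gw N e R j) := by
  rcases h.step j with ⟨h1, _, h3⟩ | ⟨h1, _, h3⟩
  · rw [h3, gw_false.2 h1]; rfl
  · rw [h3, gw_true.2 h1]; rfl

lemma Gap.hits {N e : ℕ} {Q R : ℕ → ℕ} (h : Gap N e Q R) (w : List Bool) : ∀ j,
    j + w.length ≤ e + 4 → Occ (gw N e R) w j → Hits w (Q j) (Q j + (N + e)) := by
  induction w with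
  | nil => intro j hj _; exact h.agree j (by simpa using hj)
  | cons b w ih =>
    intro j hj ho
    obtain ⟨h1, h2⟩ := ho
    rw [List.length_cons] at hj
    have h3 := ih (j + 1) (by omega) h2
    refine ⟨h.agree j (by omega), ?_⟩
    rw [h.q_succ j, h1] at h3
    rw [show Q j + (N + e) + gp b = Q j + gp b + (N + e) by ring]
    exact h3

lemma Gap.no_occ {N e : ℕ} {Q R : ℕ → ℕ} (h : Gap N e Q R) (w : List Bool) (hw : w ∈ FW) (j : ℕ)
    (hj : j + w.length ≤ e + 4) : ¬ Occ (gw N e R) w j := by
  intro ho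
  have h1 := h.odd
  exact not_hits_FW w hw (Q j) (Q j + (N + e)) (by omega) (h.hits w j hj ho)

/-- slopes below `1/2` -/
lemma Gap.low {N e : ℕ} {Q R : ℕ → ℕ} (h : Gap N e Q R) (h1 : 2 * e < N) (h2 : 9 ≤ e) : False := by
  apply lev_contra (gw N e R) [[true, true], w111.reverse, w12121.reverse, w1211211211.reverse]
    (e + 4) 13 (by omega) _ (by decide +kernel)
  intro f hf j hj
  simp only [List.mem_cons, List.not_mem_nil, or_false] at hf
  rcases hf with rfl | rfl | rfl | rfl
  · rintro ⟨a1, a2, _⟩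
    rw [gw_true] at a1 a2
    have := h.step j
    have := h.lt j
    omega
  · rw [List.reverse_reverse]
    exact h.no_occ _ (by simp [FW]) j (by simpa using hj)
  · rw [List.reverse_reverse]
    exact h.no_occ _ (by simp [FW]) j (by simpa using hj)
  · rw [List.reverse_reverse]
    exact h.no_occ _ (by simp [FW]) j (by simpa using hj)

/-- slopes between `1/2` and `2/3` -/
lemma Gap.mid {N e : ℕ} {Q R : ℕ → ℕ} (h : Gap N e Q R) (h1 : N < 2 * e) (h3 : 3 * e < 2 * N)
    (h2 : 17 ≤ e) : False := by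
  apply lev_contra (gw N e R) [[false, false], [true, true, true], w12121.reverse,
    w1221221.reverse, wA.reverse] (e + 4) 21 (by omega) _ (by decide +kernel)
  intro f hf j hj
  simp only [List.mem_cons, List.not_mem_nil, or_false] at hf
  rcases hf with rfl | rfl | rfl | rfl | rfl
  · rintro ⟨a1, a2, _⟩
    rw [gw_false] at a1 a2
    have := h.step j
    omega
  · rintro ⟨a1, a2, a3, _⟩
    rw [gw_true] at a1 a2 a3
    have := h.step j
    have := h.step (j + 1)
    have := h.lt j
    omega
  · rw [List.reverse_reverse]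
    exact h.no_occ _ (by simp [FW]) j (by simpa using hj)
  · rw [List.reverse_reverse]
    exact h.no_occ _ (by simp [FW]) j (by simpa using hj)
  · rw [List.reverse_reverse]
    exact h.no_occ _ (by simp [FW]) j (by simpa using hj)

/-- slopes between `2/3` and `3/4` -/
lemma Gap.upper {N e : ℕ} {Q R : ℕ → ℕ} (h : Gap N e Q R) (h1 : 2 * N < 3 * e)
    (h3 : 4 * e < 3 * N) (h2 : 11 ≤ e) : False := by
  apply lev_contra (gw N e R) [[false, false], [false, true, false], [true, true, true, true],
    w21222122.reverse, w1221221.reverse] (e + 4) 14 (by omega) _ (by decide +kernel)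
  intro f hf j hj
  simp only [List.mem_cons, List.not_mem_nil, or_false] at hf
  rcases hf with rfl | rfl | rfl | rfl | rfl
  · rintro ⟨a1, a2, _⟩
    rw [gw_false] at a1 a2
    have := h.step j
    omega
  · rintro ⟨a1, a2, a3, _⟩
    rw [gw_false] at a1 a3
    rw [gw_true] at a2
    have := h.step j
    have := h.step (j + 1)
    have := h.lt j
    omega
  · rintro ⟨a1, a2, a3, a4, _⟩
    rw [gw_true] at a1 a2 a3 a4
    have := h.step j
    have := h.step (j + 1)
    have := h.step (j + 1 + 1)
    have := h.lt j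
    omega
  · rw [List.reverse_reverse]
    exact h.no_occ _ (by simp [FW]) j (by simpa using hj)
  · rw [List.reverse_reverse]
    exact h.no_occ _ (by simp [FW]) j (by simpa using hj)

/-- slopes above `3/4` -/
lemma Gap.high {N e f : ℕ} {Q R : ℕ → ℕ} (h : Gap N e Q R) (h1 : e + f = N) (h3 : 4 * f < N)
    (h2 : 3 ≤ f) : False := by
  have key : ∀ i, i ≤ R 3 / f → R (3 + i) + i * f = R 3 := by
    intro i
    induction i with
    | zero => intro _; simp
    | succ i ih =>
      intro hi
      have e1 := ih (by omega)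
      have e2 : (i + 1) * f ≤ R 3 := by
        calc (i + 1) * f ≤ (R 3 / f) * f := Nat.mul_le_mul_right _ hi
          _ ≤ R 3 := Nat.div_mul_le_self _ _
      have e3 : (i + 1) * f = i * f + f := by ring
      rcases h.step (3 + i) with ⟨a, _, _⟩ | ⟨a, b, _⟩
      · omega
      · rw [show 3 + (i + 1) = 3 + i + 1 by ring]
        omega
  set p := R 3 / f with hp
  have e1 := key p le_rfl
  have e2 : R (3 + p) < f := by
    have : R 3 % f < f := Nat.mod_lt _ (by omega)
    have h4 := Nat.div_add_mod (R 3) f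
    rw [← hp] at h4
    have h5 : f * p = p * f := by ring
    omega
  have e3 : p ≤ R 3 / 3 := by
    rw [hp]; exact Nat.div_le_div_left h2 (by norm_num)
  have e4 := h.lt 3
  have hocc : Occ (gw N e R) w2221222 p := by
    have s0 := h.step p
    have s1 := h.step (p + 1)
    have s2 := h.step (p + 1 + 1)
    have s3 := h.step (p + 1 + 1 + 1)
    have s4 := h.step (p + 1 + 1 + 1 + 1)
    have s5 := h.step (p + 1 + 1 + 1 + 1 + 1)
    have l0 := h.lt p
    have l1 := h.lt (p + 1)
    have l2 := h.lt (p + 1 + 1)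
    have l3 := h.lt (p + 1 + 1 + 1)
    rw [show 3 + p = p + 1 + 1 + 1 by ring] at e2
    refine ⟨gw_true.2 ?_, gw_true.2 ?_, gw_true.2 ?_, gw_false.2 ?_, gw_true.2 ?_, gw_true.2 ?_,
      gw_true.2 ?_, trivial⟩ <;> omega
  refine h.no_occ _ (by simp [FW]) p ?_ hocc
  show p + 7 ≤ e + 4
  omega

/-- slopes at most `1/4` -/
lemma Gap.small {N e : ℕ} {Q R : ℕ → ℕ} (h : Gap N e Q R) (h1 : 4 * e ≤ N) (h2 : 3 ≤ e) :
    False := by
  have n0 := h.no_occ w111 (by simp [FW]) 0 (by show 0 + 3 ≤ e + 4; omega)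
  have n1 := h.no_occ w111 (by simp [FW]) 1 (by show 1 + 3 ≤ e + 4; omega)
  have n2 := h.no_occ w111 (by simp [FW]) 2 (by show 2 + 3 ≤ e + 4; omega)
  have n3 := h.no_occ w111 (by simp [FW]) 3 (by show 3 + 3 ≤ e + 4; omega)
  simp only [w111, Occ, gw_false, and_true, not_and, not_lt] at n0 n1 n2 n3
  have s0 := h.step 0
  have s1 := h.step 1
  have s2 := h.step 2
  have s3 := h.step 3
  have s4 := h.step 4
  have s5 := h.step 5
  have l0 := h.lt 0
  norm_num at *
  omega

lemma Gap.one {N : ℕ} {Q R : ℕ → ℕ} (h : Gap N 1 Q R) (h1 : 4 ≤ N) : R 0 + 3 = N := by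
  have n0 := h.no_occ w111 (by simp [FW]) 0 (by show 0 + 3 ≤ 1 + 4; omega)
  have n1 := h.no_occ w111 (by simp [FW]) 1 (by show 1 + 3 ≤ 1 + 4; omega)
  have n2 := h.no_occ w111 (by simp [FW]) 2 (by show 2 + 3 ≤ 1 + 4; omega)
  simp only [w111, Occ, gw_false, and_true, not_and, not_lt] at n0 n1 n2
  have s0 := h.step 0
  have s1 := h.step 1
  have s2 := h.step 2
  have s3 := h.step 3
  have s4 := h.step 4
  have l0 := h.lt 0
  norm_num at *
  omega

end Pool.Agent.H114.TM
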