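import Pool.Agent.H114.TM.Gaps

/-!
No monochromatic progression of length `d + 5` for odd `d` not of the form `2 ^ k - 1`.
-/

set_option autoImplicit false

namespace Pool.Agent.H114.TM

/-- a monochromatic progression with `l` terms and difference `d` starting at `n` -/
def Mono (n d l : ℕ) : Prop := ∀ j < l, tb (n + j * d) = tb n

lemma Mono.le {n d l l' : ℕ} (h : Mono n d l) (hl : l' ≤ l) : Mono n d l' :=
  fun j hj => h j (lt_of_lt_of_le hj hl)

/-! ### Small differences -/

/-- mask of a progression -/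
def apMask (d : ℕ) : ℕ → ℕ
  | 0 => 0
  | l + 1 => 1 ||| (apMask d l <<< d)

lemma apMask_testBit (d : ℕ) : ∀ l i, Nat.testBit (apMask d l) i = true → ∃ j < l, i = j * d := by
  intro l
  induction l with
  | zero => intro i h; simp [apMask] at h
  | succ l ih =>
    intro i h
    simp only [apMask, Nat.testBit_or, Nat.testBit_one_eq_true_iff_self_eq_zero,
      Nat.testBit_shiftLeft, Bool.or_eq_true, Bool.and_eq_true, decide_eq_true_eq] at h
    rcases h with h | ⟨h1, h2⟩
    · exact ⟨0, by omega, by omega⟩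
    · obtain ⟨j, hj, e⟩ := ih _ h2
      exact ⟨j + 1, by omega, by rw [add_mul]; omega⟩

/-- the four two-block strings -/
def Ws256 : List ℕ := [0x69969669966969969669699669969669966969966996966969969669966969966996966996696996966969966996966996696996699696696996966996696996,
  0x96696996699696696996966996696996699696699669699696696996699696696996966996696996966969966996966996696996699696696996966996696996,
  0x69969669966969969669699669969669966969966996966969969669966969969669699669969669699696699669699669969669966969969669699669969669,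
  0x96696996699696696996966996696996699696699669699696696996699696699669699669969669699696699669699669969669966969969669699669969669]

lemma mem_Ws256 (x y : Bool) : W256 x y ∈ Ws256 := by
  revert x y; decide +kernel

/-- the finite check -/
def chk2 (M : ℕ) : Bool :=
  (List.range 256).all fun r => Ws256.all fun X =>
    !((X >>> r) &&& M == 0) && !((X >>> r) &&& M == M)

theorem not_mono_small (d l : ℕ) (hc : chk2 (apMask d l) = true) (hl : l * d ≤ 256) (n : ℕ) :
    ¬ Mono n d l := by
  intro h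
  have hr : n % 256 < 256 := Nat.mod_lt _ (by norm_num)
  have e1 : n = 256 * (n / 256) + n % 256 := (Nat.div_add_mod n 256).symm
  generalize n % 256 = r at *
  generalize n / 256 = a at *
  subst e1
  unfold chk2 at hc
  rw [List.all_eq_true] at hc
  have h1 := hc r (List.mem_range.2 hr)
  rw [List.all_eq_true] at h1
  have h2 := h1 _ (mem_Ws256 (tb a) (tb (a + 1)))
  rw [Bool.and_eq_true] at h2
  obtain ⟨h3, h4⟩ := h2
  have key : ∀ i, Nat.testBit (apMask d l) i = true →
      Nat.testBit (W256 (tb a) (tb (a + 1))) (r + i) = tb (256 * a + r) := by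
    intro i hi
    obtain ⟨j, hj, rfl⟩ := apMask_testBit d l i hi
    have h5 : j * d ≤ l * d := Nat.mul_le_mul_right _ hj.le
    rw [← tb_W256 a (r + j * d) (by omega), ← add_assoc]
    exact h j hj
  cases hb : tb (256 * a + r) with
  | false =>
    have : (W256 (tb a) (tb (a + 1)) >>> r) &&& apMask d l = 0 := by
      apply Nat.eq_of_testBit_eq
      intro i
      rw [Nat.testBit_and, Nat.testBit_shiftRight, Nat.zero_testBit]
      by_cases hi : Nat.testBit (apMask d l) i = true
      · rw [key i hi, hb]; simp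
      · have : Nat.testBit (apMask d l) i = false := by simpa using hi
        rw [this]; simp
    rw [this] at h3
    simp at h3
  | true =>
    have : (W256 (tb a) (tb (a + 1)) >>> r) &&& apMask d l = apMask d l := by
      apply Nat.eq_of_testBit_eq
      intro i
      rw [Nat.testBit_and, Nat.testBit_shiftRight]
      by_cases hi : Nat.testBit (apMask d l) i = true
      · rw [key i hi, hb, hi]; simp
      · have : Nat.testBit (apMask d l) i = false := by simpa using hi
        rw [this]; simp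
    rw [this] at h4
    simp at h4

lemma not_mono_11 (n : ℕ) : ¬ Mono n 11 5 :=
  not_mono_small 11 5 (by decide +kernel) (by norm_num) n
lemma not_mono_13 (n : ℕ) : ¬ Mono n 13 5 :=
  not_mono_small 13 5 (by decide +kernel) (by norm_num) n
lemma not_mono_21 (n : ℕ) : ¬ Mono n 21 9 :=
  not_mono_small 21 9 (by decide +kernel) (by norm_num) n
lemma not_mono_23 (n : ℕ) : ¬ Mono n 23 7 :=
  not_mono_small 23 7 (by decide +kernel) (by norm_num) n
lemma not_mono_25 (n : ℕ) : ¬ Mono n 25 7 :=
  not_mono_small 25 7 (by decide +kernel) (by norm_num) n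

/-! ### Quotients and remainders -/

lemma tb_div_mod (m x : ℕ) : tb x = xor (tb (x / 2 ^ m)) (tb (x % 2 ^ m)) := by
  conv_lhs => rw [← Nat.div_add_mod x (2 ^ m)]
  exact tb_block m _ _ (Nat.mod_lt _ (by positivity))

/-- terms at distance `2 ^ m` in a monochromatic progression -/
lemma Mono.agree {n d l m j : ℕ} (h : Mono n d l) (hj : j + 2 ^ m < l) :
    tb ((n + j * d) / 2 ^ m) = tb ((n + j * d) / 2 ^ m + d) := by
  have hp0 : 0 < 2 ^ m := by positivity
  have h1 := h j (by omega)
  have h2 := h (j + 2 ^ m) hj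
  have e : n + (j + 2 ^ m) * d = n + j * d + 2 ^ m * d := by ring
  rw [e] at h2
  have hp : 0 < 2 ^ m := by positivity
  have h3 : (n + j * d + 2 ^ m * d) / 2 ^ m = (n + j * d) / 2 ^ m + d := by
    rw [Nat.add_mul_div_left _ _ hp]
  have h4 : (n + j * d + 2 ^ m * d) % 2 ^ m = (n + j * d) % 2 ^ m := by
    rw [Nat.add_mul_mod_self_left]
  have h5 := tb_div_mod m (n + j * d)
  have h6 := tb_div_mod m (n + j * d + 2 ^ m * d)
  rw [h3, h4, h2, ← h1, h5] at h6
  cases h7 : tb ((n + j * d) / 2 ^ m) <;> cases h8 : tb ((n + j * d) / 2 ^ m + d) <;>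
    cases h9 : tb ((n + j * d) % 2 ^ m) <;> simp_all

lemma step_div_mod (N e x : ℕ) (he : e < N) :
    (x % N + e < N ∧ (x + (N + e)) % N = x % N + e ∧ (x + (N + e)) / N = x / N + 1) ∨
    (N ≤ x % N + e ∧ (x + (N + e)) % N + N = x % N + e ∧ (x + (N + e)) / N = x / N + 2) := by
  have hN : 0 < N := by omega
  have h0 := Nat.div_add_mod x N
  have hlt := Nat.mod_lt x hN
  rcases Nat.lt_or_ge (x % N + e) N with h | h
  · left
    have e1 : x + (N + e) = (x % N + e) + N * (x / N + 1) := by
      rw [Nat.mul_add, Nat.mul_one]; omega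
    refine ⟨h, ?_, ?_⟩
    · rw [e1, Nat.add_mul_mod_self_left, Nat.mod_eq_of_lt h]
    · rw [e1, Nat.add_mul_div_left _ _ hN, Nat.div_eq_of_lt h]; omega
  · right
    have e1 : x + (N + e) = (x % N + e - N) + N * (x / N + 2) := by
      rw [Nat.mul_add]; omega
    refine ⟨h, ?_, ?_⟩
    · rw [e1, Nat.add_mul_mod_self_left, Nat.mod_eq_of_lt (by omega)]; omega
    · rw [e1, Nat.add_mul_div_left _ _ hN, Nat.div_eq_of_lt (by omega)]; omega

lemma gap_of_mono {n m e : ℕ} (he : e < 2 ^ m) (hodd : (2 ^ m + e) % 2 = 1)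
    (h : Mono n (2 ^ m + e) (2 ^ m + e + 5)) :
    Gap (2 ^ m) e (fun j => (n + j * (2 ^ m + e)) / 2 ^ m)
      (fun j => (n + j * (2 ^ m + e)) % 2 ^ m) where
  lt := fun j => Nat.mod_lt _ (by positivity)
  step := fun j => by
    have := step_div_mod (2 ^ m) e (n + j * (2 ^ m + e)) he
    have e1 : n + (j + 1) * (2 ^ m + e) = n + j * (2 ^ m + e) + (2 ^ m + e) := by ring
    simp only [e1]
    exact this
  odd := hodd
  agree := fun j hj => h.agree (by omega)

/-- difference `2 ^ m + 1` -/
lemma no_one {n m : ℕ} (hm : 2 ≤ m) (h : Mono n (2 ^ m + 1) (2 ^ m + 1 + 5)) : False := by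
  have hN : 4 ≤ 2 ^ m := by
    calc 4 = 2 ^ 2 := by norm_num
      _ ≤ 2 ^ m := Nat.pow_le_pow_right (by norm_num) hm
  obtain ⟨N', hN'⟩ : ∃ N', 2 ^ m = 4 * N' := by
    refine ⟨2 ^ (m - 2), ?_⟩
    rw [show (4 : ℕ) = 2 ^ 2 by norm_num, ← pow_add]
    congr 1; omega
  have g := gap_of_mono (e := 1) (by omega) (by omega) h
  have h3 := g.one hN
  simp only [zero_mul, add_zero] at h3
  -- coordinates
  set a := n / 2 ^ m with ha
  have hn : n = 2 ^ m * a + (2 ^ m - 3) := by
    have := Nat.div_add_mod n (2 ^ m)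
    rw [← ha] at this
    omega
  have t0 : tb n = xor (tb a) (tb (2 ^ m - 3)) := by
    conv_lhs => rw [hn]
    exact tb_block m a _ (by omega)
  have t1 : tb n = xor (tb (a + 1)) (tb (2 ^ m - 2)) := by
    rw [← h 1 (by omega)]
    have : n + 1 * (2 ^ m + 1) = 2 ^ m * (a + 1) + (2 ^ m - 2) := by
      have e5 : 2 ^ m * (a + 1) = 2 ^ m * a + 2 ^ m * 1 := by ring
      omega
    rw [this]
    exact tb_block m _ _ (by omega)
  have t4 : tb n = xor (tb (a + 5)) (tb 1) := by
    rw [← h 4 (by omega)]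
    have : n + 4 * (2 ^ m + 1) = 2 ^ m * (a + 5) + 1 := by
      have e5 : 2 ^ m * (a + 5) = 2 ^ m * a + 2 ^ m * 5 := by ring
      omega
    rw [this]
    exact tb_block m _ _ (by omega)
  have t5 : tb n = xor (tb (a + 6)) (tb 2) := by
    rw [← h 5 (by omega)]
    have : n + 5 * (2 ^ m + 1) = 2 ^ m * (a + 6) + 2 := by
      have e5 : 2 ^ m * (a + 6) = 2 ^ m * a + 2 ^ m * 6 := by ring
      omega
    rw [this]
    exact tb_block m _ _ (by omega)
  have b1 : tb 1 = true := by
    have := tb_two_mul_add_one 0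
    rw [tb_zero] at this
    simpa using this
  have b2 : tb 2 = true := by
    have := tb_two_mul 1
    rw [b1] at this
    simpa using this
  -- a is even
  have h56 : tb (a + 5) = tb (a + 6) := by
    rw [t4, b1, b2] at t5
    clear_value a
    generalize tb (a + 5) = x at t5 ⊢
    generalize tb (a + 6) = y at t5 ⊢
    revert t5
    cases x <;> cases y <;> decide
  have hae : a % 2 = 0 := by
    by_contra hcon
    obtain ⟨c, hc⟩ : ∃ c, a + 5 = 2 * c := ⟨(a + 5) / 2, by omega⟩
    rw [show a + 6 = 2 * c + 1 by omega, hc, tb_two_mul, tb_two_mul_add_one] at h56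
    revert h56
    generalize tb c = x
    cases x <;> decide
  have h01 : tb (a + 1) = !tb a := by
    obtain ⟨c, hc⟩ : ∃ c, a = 2 * c := ⟨a / 2, by omega⟩
    rw [hc, tb_two_mul, tb_two_mul_add_one]
  -- t(N-3) = t(N-2)
  have h32 : tb (2 ^ m - 3) = tb (2 ^ m - 2) := by
    have e1 : 2 ^ m - 3 = 2 * (2 * (N' - 1)) + 1 := by omega
    have e2 : 2 ^ m - 2 = 2 * (2 * (N' - 1) + 1) := by omega
    rw [e1, e2, tb_two_mul_add_one, tb_two_mul, tb_two_mul, tb_two_mul_add_one]
  rw [t0, h01, h32] at t1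
  revert t1
  generalize tb a = x
  generalize tb (2 ^ m - 2) = y
  cases x <;> cases y <;> decide

/-- **Odd differences not of the form `2 ^ k - 1`.** -/
theorem no_long (d n : ℕ) (hd : d % 2 = 1) (hk : ∀ k, d + 1 ≠ 2 ^ k) : ¬ Mono n d (d + 5) := by
  intro h
  have hd0 : d ≠ 0 := by omega
  obtain ⟨m, hm1, hm2⟩ : ∃ m, 2 ^ m ≤ d ∧ d < 2 ^ (m + 1) :=
    ⟨Nat.log 2 d, Nat.pow_log_le_self 2 hd0, Nat.lt_pow_succ_log_self (by norm_num) d⟩
  have hk1 := hk (m + 1)
  have hpow : 2 ^ (m + 1) = 2 * 2 ^ m := by ring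
  rw [hpow] at hm2 hk1
  obtain ⟨e, rfl⟩ : ∃ e, d = 2 ^ m + e := ⟨d - 2 ^ m, by omega⟩
  have he : e < 2 ^ m := by omega
  have h0 := hk 0
  have h1 := hk 1
  have h2 := hk 2
  have h3 := hk 3
  have h4 := hk 4
  have h5 := hk 5
  norm_num at h0 h1 h2 h3 h4 h5
  have hm : 2 ≤ m := by
    by_contra hcon
    have : m = 0 ∨ m = 1 := by omega
    rcases this with rfl | rfl <;> omega
  have g := gap_of_mono he hd h
  -- N is divisible by 4
  obtain ⟨N', hN'⟩ : ∃ N', 2 ^ m = 4 * N' := by
    refine ⟨2 ^ (m - 2), ?_⟩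
    rw [show (4 : ℕ) = 2 ^ 2 by norm_num, ← pow_add]
    congr 1; omega
  have hcase : 2 ^ m = 4 ∨ 2 ^ m = 8 ∨ 2 ^ m = 16 ∨ 32 ≤ 2 ^ m := by
    rcases Nat.lt_or_ge m 5 with h5 | h5
    · have : m = 2 ∨ m = 3 ∨ m = 4 := by omega
      rcases this with rfl | rfl | rfl <;> norm_num
    · right; right; right
      calc 32 = 2 ^ 5 := by norm_num
        _ ≤ 2 ^ m := Nat.pow_le_pow_right (by norm_num) h5
  -- special differences
  have s11 : 2 ^ m + e ≠ 11 := by
    intro hh; rw [hh] at h; exact not_mono_11 n (h.le (by norm_num))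
  have s13 : 2 ^ m + e ≠ 13 := by
    intro hh; rw [hh] at h; exact not_mono_13 n (h.le (by norm_num))
  have s21 : 2 ^ m + e ≠ 21 := by
    intro hh; rw [hh] at h; exact not_mono_21 n (h.le (by norm_num))
  have s23 : 2 ^ m + e ≠ 23 := by
    intro hh; rw [hh] at h; exact not_mono_23 n (h.le (by norm_num))
  have s25 : 2 ^ m + e ≠ 25 := by
    intro hh; rw [hh] at h; exact not_mono_25 n (h.le (by norm_num))
  have he1 : e ≠ 1 := by
    rintro rfl
    exact no_one hm h
  -- 3 * (N - e) ≠ N as N is a power of two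
  have hdiv3 : ∀ c, 2 ^ m ≠ 3 * c := by
    intro c hc
    have : 3 ∣ 2 ^ m := ⟨c, hc⟩
    have := (Nat.Prime.dvd_of_dvd_pow Nat.prime_three this)
    omega
  rcases Nat.lt_trichotomy (2 * e) (2 ^ m) with hc | hc | hc
  · -- low slopes
    rcases Nat.lt_or_ge (2 ^ m) (4 * e) with hc2 | hc2
    · by_cases h9 : 9 ≤ e
      · exact g.low hc h9
      · omega
    · exact g.small hc2 (by omega)
  · omega
  · obtain ⟨f, hf⟩ : ∃ f, e + f = 2 ^ m := ⟨2 ^ m - e, by omega⟩
    rcases Nat.lt_trichotomy (3 * e) (2 * 2 ^ m) with hc2 | hc2 | hc2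
    · by_cases h17 : 17 ≤ e
      · exact g.mid hc hc2 h17
      · omega
    · exact hdiv3 f (by omega)
    · rcases Nat.lt_trichotomy (4 * e) (3 * 2 ^ m) with hc3 | hc3 | hc3
      · exact g.upper hc2 hc3 (by omega)
      · -- 4 f = N
        have : f % 2 = 1 := by omega
        have h4f : 2 ^ m = 4 * f := by omega
        have : m = 2 := by
          by_contra hcon
          obtain ⟨r, rfl⟩ : ∃ r, m = r + 3 := ⟨m - 3, by omega⟩
          have : 2 ^ (r + 3) = 8 * 2 ^ r := by ring
          omega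
        subst this
        omega
      · exact g.high hf (by omega) (by omega)

end Pool.Agent.H114.TM
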